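import Pool.Agent.H27.ZF.TA

/-!
# Board zf, row NEW: a lower bound for elementary symmetric functions (by the identities of Newton)
-/

open Finset

namespace Pool.Agent.H96.ZF

/-- the elementary symmetric function of degree `j` of the numbers `x i`, `i ∈ s` -/
noncomputable def es {ι : Type*} (s : Finset ι) (x : ι → ℂ) (j : ℕ) : ℂ :=
  ∑ t ∈ powersetCard j s, ∏ i ∈ t, x i

theorem es_zero {ι : Type*} (s : Finset ι) (x : ι → ℂ) : es s x 0 = 1 := by
  simp [es]

theorem es_newton {ι : Type*} (s : Finset ι) (x : ι → ℂ) (j : ℕ) :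
    (j : ℂ) * es s x j = (-1) ^ (j + 1) * ∑ a ∈ antidiagonal j with a.1 < j,
      (-1) ^ a.1 * es s x a.1 * ∑ i ∈ s, x i ^ a.2 := by
  classical
  have h := congrArg (MvPolynomial.aeval (fun i : s => x i) : MvPolynomial s ℂ →ₐ[ℂ] ℂ)
    (MvPolynomial.mul_esymm_eq_sum s ℂ j)
  have he : ∀ k, (MvPolynomial.aeval (fun i : s => x i) : MvPolynomial s ℂ →ₐ[ℂ] ℂ)
      (MvPolynomial.esymm s ℂ k) = es s x k := by
    intro k
    rw [MvPolynomial.aeval_esymm_eq_multiset_esymm, es, ← Finset.esymm_map_val]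
    congr 1
    have : (Finset.univ.val.map fun i : s => x i) = s.1.map x := by
      rw [Finset.univ_eq_attach]
      exact Multiset.attach_map_val' s.1 x
    exact this
  have hp : ∀ k, (MvPolynomial.aeval (fun i : s => x i) : MvPolynomial s ℂ →ₐ[ℂ] ℂ)
      (MvPolynomial.psum s ℂ k) = ∑ i ∈ s, x i ^ k := by
    intro k
    rw [MvPolynomial.psum, map_sum]
    simp only [map_pow, MvPolynomial.aeval_X]
    exact Finset.sum_coe_sort s fun i => x i ^ k
  simp only [map_mul, map_natCast, map_pow, map_neg, map_one, map_sum, he, hp] at h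
  exact h

/-- The step: the elementary symmetric functions grow. -/
theorem es_step {ι : Type*} (s : Finset ι) (x : ι → ℂ) (l : ℕ) {a V T : ℝ} (ha0 : 0 ≤ a)
    (hV0 : 0 ≤ V) (hT0 : 0 < T) (ha : ∀ i ∈ s, ‖x i‖ ≤ a) (hV : ∑ i ∈ s, ‖x i‖ ^ 2 ≤ V)
    (hT : T ≤ ‖∑ i ∈ s, x i‖) (h1 : 4 * l * a ≤ T) (h2 : 8 * V * l ≤ T ^ 2) :
    ∀ j, 1 ≤ j → j ≤ l → T / 2 * ‖es s x (j - 1)‖ ≤ j * ‖es s x j‖ := by
  intro j
  induction j using Nat.strong_induction_on with
  | _ j ih =>
    intro hj1 hjl
    have hl : (0 : ℝ) < l := by exact_mod_cast lt_of_lt_of_le hj1 hjl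
    -- the earlier ones are bounded in terms of the last one
    have hdown : ∀ k, 1 ≤ k → k ≤ j →
        ‖es s x (j - k)‖ ≤ (2 * l / T) ^ (k - 1) * ‖es s x (j - 1)‖ := by
      intro k
      induction k with
      | zero => intro h; omega
      | succ k ihk =>
        intro _ hk
        rcases Nat.eq_zero_or_pos k with rfl | hk0
        · simp
        · have e1 := ihk hk0 (by omega)
          have e2 := ih (j - k) (by omega) (by omega) (by omega)
          have e3 : j - k - 1 = j - (k + 1) := by omega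
          rw [e3] at e2
          have e4 : ((j - k : ℕ) : ℝ) ≤ l := by
            have : j - k ≤ l := by omega
            exact_mod_cast this
          have e5 : T / 2 * ‖es s x (j - (k + 1))‖ ≤ l * ‖es s x (j - k)‖ :=
            e2.trans (mul_le_mul_of_nonneg_right e4 (norm_nonneg _))
          have e6 : ‖es s x (j - (k + 1))‖ ≤ 2 * l / T * ‖es s x (j - k)‖ := by
            rw [div_mul_eq_mul_div, le_div_iff₀ hT0]
            linarith
          calc ‖es s x (j - (k + 1))‖ ≤ 2 * l / T * ‖es s x (j - k)‖ := e6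
            _ ≤ 2 * l / T * ((2 * l / T) ^ (k - 1) * ‖es s x (j - 1)‖) := by gcongr
            _ = (2 * l / T) ^ (k + 1 - 1) * ‖es s x (j - 1)‖ := by
              rw [← mul_assoc, ← pow_succ']
              congr 2
              omega
    -- power sums
    have hpow : ∀ k, 2 ≤ k → ‖∑ i ∈ s, x i ^ k‖ ≤ V * a ^ (k - 2) := by
      intro k hk
      calc ‖∑ i ∈ s, x i ^ k‖ ≤ ∑ i ∈ s, ‖x i ^ k‖ := norm_sum_le _ _
        _ ≤ ∑ i ∈ s, ‖x i‖ ^ 2 * a ^ (k - 2) := by
          refine Finset.sum_le_sum fun i hi => ?_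
          rw [norm_pow]
          have : ‖x i‖ ^ k = ‖x i‖ ^ 2 * ‖x i‖ ^ (k - 2) := by
            rw [← pow_add]
            congr 1
            omega
          rw [this]
          exact mul_le_mul_of_nonneg_left (pow_le_pow_left₀ (norm_nonneg _) (ha i hi) _)
            (by positivity)
        _ = (∑ i ∈ s, ‖x i‖ ^ 2) * a ^ (k - 2) := by rw [Finset.sum_mul]
        _ ≤ V * a ^ (k - 2) := mul_le_mul_of_nonneg_right hV (by positivity)
    have hN := es_newton s x j
    obtain ⟨m, rfl⟩ : ∃ m, j = m + 1 := ⟨j - 1, by omega⟩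
    have hsum : ∑ b ∈ antidiagonal (m + 1) with b.1 < m + 1,
        (-1) ^ b.1 * es s x b.1 * ∑ i ∈ s, x i ^ b.2 =
        ∑ b ∈ range (m + 1), (-1) ^ b * es s x b * ∑ i ∈ s, x i ^ (m + 1 - b) := by
      rw [Finset.sum_filter, Finset.Nat.sum_antidiagonal_eq_sum_range_succ_mk,
        Finset.sum_range_succ]
      simp only [lt_self_iff_false, if_false, add_zero]
      refine Finset.sum_congr rfl fun b hb => ?_
      rw [if_pos (Finset.mem_range.1 hb)]
    rw [hsum, Finset.sum_range_succ] at hN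
    set R := ∑ b ∈ range m, (-1) ^ b * es s x b * ∑ i ∈ s, x i ^ (m + 1 - b) with hR
    have hRle : ‖R‖ ≤ T / 2 * ‖es s x m‖ := by
      have g1 : ‖R‖ ≤ ∑ b ∈ range m, ‖es s x b‖ * (V * a ^ (m + 1 - b - 2)) := by
        refine (norm_sum_le _ _).trans (Finset.sum_le_sum fun b hb => ?_)
        rw [norm_mul, norm_mul, norm_pow, norm_neg, norm_one, one_pow, one_mul]
        exact mul_le_mul_of_nonneg_left (hpow _ (by have := Finset.mem_range.1 hb; omega))
          (norm_nonneg _)
      have g2 : ∑ b ∈ range m, ‖es s x b‖ * (V * a ^ (m + 1 - b - 2)) =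
          ∑ c ∈ range m, ‖es s x (m - 1 - c)‖ * (V * a ^ c) := by
        rw [← Finset.sum_range_reflect]
        refine Finset.sum_congr rfl fun c hc => ?_
        have := Finset.mem_range.1 hc
        congr 3
        omega
      have hq : 2 * l * a / T ≤ 1 / 2 := by
        rw [div_le_div_iff₀ hT0 (by norm_num)]
        linarith
      have hq0 : 0 ≤ 2 * l * a / T := by positivity
      have g3 : ∀ c ∈ range m, ‖es s x (m - 1 - c)‖ * (V * a ^ c) ≤
          V * (2 * l / T) * ‖es s x m‖ * (1 / 2) ^ c := by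
        intro c hc
        have hcm := Finset.mem_range.1 hc
        have e1 := hdown (c + 2) (by omega) (by omega)
        have e2 : m + 1 - (c + 2) = m - 1 - c := by omega
        have e3 : c + 2 - 1 = c + 1 := by omega
        have e4 : m + 1 - 1 = m := by omega
        rw [e2, e3, e4] at e1
        calc ‖es s x (m - 1 - c)‖ * (V * a ^ c) ≤
            ((2 * l / T) ^ (c + 1) * ‖es s x m‖) * (V * a ^ c) := by gcongr
          _ = V * (2 * l / T) * ‖es s x m‖ * (2 * l * a / T) ^ c := by
            rw [pow_succ]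
            have : (2 * l * a / T) ^ c = (2 * l / T) ^ c * a ^ c := by
              rw [← mul_pow]
              congr 1
              ring
            rw [this]
            ring
          _ ≤ V * (2 * l / T) * ‖es s x m‖ * (1 / 2) ^ c := by
            refine mul_le_mul_of_nonneg_left (pow_le_pow_left₀ hq0 hq c) (by positivity)
      have g4 : ∑ c ∈ range m, ((1 : ℝ) / 2) ^ c ≤ 2 := by
        have := Summable.sum_le_tsum (f := fun c : ℕ => ((1 : ℝ) / 2) ^ c) (range m)
          (fun c _ => by positivity) summable_geometric_two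
        rwa [tsum_geometric_two] at this
      calc ‖R‖ ≤ ∑ c ∈ range m, V * (2 * l / T) * ‖es s x m‖ * (1 / 2) ^ c := by
            rw [g2] at g1
            exact g1.trans (Finset.sum_le_sum g3)
        _ = V * (2 * l / T) * ‖es s x m‖ * ∑ c ∈ range m, ((1 : ℝ) / 2) ^ c := by
            rw [← Finset.mul_sum]
        _ ≤ V * (2 * l / T) * ‖es s x m‖ * 2 := by gcongr
        _ = (8 * V * l) / (2 * T) * ‖es s x m‖ := by
            field_simp
            ring
        _ ≤ T ^ 2 / (2 * T) * ‖es s x m‖ := by gcongr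
        _ = T / 2 * ‖es s x m‖ := by
            field_simp
    have hlast : ‖(-1 : ℂ) ^ m * es s x m * ∑ i ∈ s, x i ^ (m + 1 - m)‖ =
        ‖es s x m‖ * ‖∑ i ∈ s, x i‖ := by
      rw [norm_mul, norm_mul, norm_pow, norm_neg, norm_one, one_pow, one_mul]
      congr 2
      refine Finset.sum_congr rfl fun i _ => ?_
      rw [show m + 1 - m = 1 by omega, pow_one]
    have hnorm : ((m + 1 : ℕ) : ℝ) * ‖es s x (m + 1)‖ =
        ‖R + (-1 : ℂ) ^ m * es s x m * ∑ i ∈ s, x i ^ (m + 1 - m)‖ := by
      have := congrArg norm hN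
      rw [norm_mul, norm_mul, norm_pow, norm_neg, norm_one, one_pow, one_mul,
        Complex.norm_natCast] at this
      exact this
    have e4 : m + 1 - 1 = m := by omega
    rw [hnorm, e4]
    have h3 : ‖es s x m‖ * ‖∑ i ∈ s, x i‖ - ‖R‖ ≤
        ‖R + (-1 : ℂ) ^ m * es s x m * ∑ i ∈ s, x i ^ (m + 1 - m)‖ := by
      rw [← hlast]
      have h := norm_sub_le_norm_add ((-1 : ℂ) ^ m * es s x m * ∑ i ∈ s, x i ^ (m + 1 - m)) R
      rwa [add_comm ((-1 : ℂ) ^ m * es s x m * ∑ i ∈ s, x i ^ (m + 1 - m)) R] at h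
    have h4 : ‖es s x m‖ * T ≤ ‖es s x m‖ * ‖∑ i ∈ s, x i‖ :=
      mul_le_mul_of_nonneg_left hT (norm_nonneg _)
    linarith

/-- A lower bound for the elementary symmetric function of degree `l`. -/
theorem es_lower {ι : Type*} (s : Finset ι) (x : ι → ℂ) (l : ℕ) {a V T : ℝ} (ha0 : 0 ≤ a)
    (hV0 : 0 ≤ V) (hT0 : 0 < T) (ha : ∀ i ∈ s, ‖x i‖ ≤ a) (hV : ∑ i ∈ s, ‖x i‖ ^ 2 ≤ V)
    (hT : T ≤ ‖∑ i ∈ s, x i‖) (h1 : 4 * l * a ≤ T) (h2 : 8 * V * l ≤ T ^ 2) :
    (T / 2) ^ l / (l.factorial : ℝ) ≤ ‖es s x l‖ := by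
  have key : ∀ j ≤ l, (T / 2) ^ j / (j.factorial : ℝ) ≤ ‖es s x j‖ := by
    intro j
    induction j with
    | zero => intro _; simp [es_zero]
    | succ j ih =>
      intro hj
      have e1 := ih (by omega)
      have e2 := es_step s x l ha0 hV0 hT0 ha hV hT h1 h2 (j + 1) (by omega) hj
      have e3 : j + 1 - 1 = j := by omega
      rw [e3] at e2
      rw [Nat.factorial_succ, pow_succ]
      push_cast
      have hf : (0 : ℝ) < (j.factorial : ℝ) := by exact_mod_cast Nat.factorial_pos j
      have hj1 : (0 : ℝ) < (j : ℝ) + 1 := by positivity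
      rw [div_le_iff₀ (by positivity)]
      rw [div_le_iff₀ hf] at e1
      push_cast at e2
      have e4 : (T / 2) ^ j * (T / 2) ≤ ‖es s x j‖ * (j.factorial : ℝ) * (T / 2) :=
        mul_le_mul_of_nonneg_right e1 (by positivity)
      nlinarith [e2, e4, hf]
  exact key l le_rfl

/-- NEW. Newton: a large power sum gives large elementary symmetric sums. -/
theorem pf_NEW : Pool.Agent.H27.ZF.T_NEW := by
  intro ι _ _ x a V l hl ha hV h1 h2
  rcases (norm_nonneg (∑ i, x i)).eq_or_lt with h0 | h0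
  · rw [← h0, zero_div, zero_pow (by omega), zero_div]
    exact norm_nonneg _
  · have hne : Nonempty ι := by
      by_contra hcon
      rw [not_nonempty_iff] at hcon
      rw [Finset.univ_eq_empty, Finset.sum_empty, norm_zero] at h0
      exact lt_irrefl _ h0
    have ha0 : 0 ≤ a := (norm_nonneg _).trans (ha hne.some)
    have hV0 : 0 ≤ V := (Finset.sum_nonneg fun i _ => by positivity).trans hV
    exact es_lower Finset.univ x l ha0 hV0 h0 (fun i _ => ha i) hV le_rfl h1 h2

end Pool.Agent.H96.ZF
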