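import Pool.Agent.H27.ZF.TA

/-!
# Board zf, row EPR: the Dirichlet series without the first factors of its Euler product
-/

set_option autoImplicit false

open Finset Pool.Agent.H27.ZF

namespace Pool.Agent.H96.ZF

open Classical in
/-- the term of the series over the integers without divisors in `S` -/
noncomputable def tm (lam : ℕ → ℂ) (s : ℂ) (S : Finset ℕ) (n : ℕ) : ℂ :=
  if 1 ≤ n ∧ ∀ p ∈ S, ¬ p ∣ n then lam n * (n : ℂ) ^ (-s) else 0

theorem tm_norm_le (lam : ℕ → ℂ) (s : ℂ) (S : Finset ℕ) (n : ℕ) :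
    ‖tm lam s S n‖ ≤ if 1 ≤ n then ‖lam n‖ * (n : ℝ) ^ (-s.re) else 0 := by
  unfold tm
  by_cases h : 1 ≤ n
  · rw [if_pos h]
    split_ifs with h'
    · rw [norm_mul, Complex.norm_natCast_cpow_of_pos (by omega), Complex.neg_re]
    · rw [norm_zero]
      positivity
  · rw [if_neg h, if_neg fun h' => h h'.1, norm_zero]

theorem tm_summable {lam : ℕ → ℂ} {s : ℂ}
    (hs : Summable (fun n : ℕ => if 1 ≤ n then ‖lam n‖ * (n : ℝ) ^ (-s.re) else 0))
    (S : Finset ℕ) : Summable (tm lam s S) :=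
  Summable.of_norm_bounded hs fun n => tm_norm_le lam s S n

/-- the value at `p ^ k * n'` -/
theorem tm_pow_mul {m : ℕ} {lam : ℕ → ℂ} {q : ℕ → ℕ → ℂ} (hE : Eul m lam q) (s : ℂ)
    {S : Finset ℕ} (hS : ∀ p ∈ S, p.Prime) {p : ℕ} (hp : p.Prime) (hpS : p ∉ S) (k : ℕ) {n : ℕ}
    (hn : ¬ p ∣ n) : tm lam s S (p ^ k * n) =
      lam (p ^ k) * ((p : ℂ) ^ (-s)) ^ k * tm lam s S n := by
  have hn1 : 1 ≤ n := by
    rcases Nat.eq_zero_or_pos n with rfl | h
    · exact absurd (dvd_zero p) hn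
    · exact h
  have h1 : 1 ≤ p ^ k * n := Nat.mul_pos (pow_pos hp.pos _) hn1
  have hdv : (∀ p' ∈ S, ¬ p' ∣ p ^ k * n) ↔ ∀ p' ∈ S, ¬ p' ∣ n := by
    refine forall₂_congr fun p' hp' => not_congr ⟨fun h => ?_, fun h => h.mul_left _⟩
    rcases ((hS p' hp').dvd_mul).1 h with h2 | h2
    · have h3 := (hS p' hp').dvd_of_dvd_pow h2
      rw [Nat.prime_dvd_prime_iff_eq (hS p' hp') hp] at h3
      exact absurd (h3 ▸ hp') hpS
    · exact h2
  unfold tm
  by_cases h : ∀ p' ∈ S, ¬ p' ∣ n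
  · rw [if_pos ⟨h1, hdv.2 h⟩, if_pos ⟨hn1, h⟩,
      hE.mul (p ^ k) n (Nat.Coprime.pow_left k ((Nat.Prime.coprime_iff_not_dvd hp).2 hn)),
      Nat.cast_mul, Complex.natCast_mul_natCast_cpow, Nat.cast_pow]
    have : ((p : ℂ) ^ k) ^ (-s) = ((p : ℂ) ^ (-s)) ^ k := by
      rw [← Complex.natCast_cpow_natCast_mul, mul_comm, Complex.cpow_mul_nat]
    rw [← this]
    ring
  · rw [if_neg fun h' => h (hdv.1 h'.2), if_neg fun h' => h h'.2, mul_zero]

/-- one factor -/
theorem step {m : ℕ} {lam : ℕ → ℂ} {q : ℕ → ℕ → ℂ} (hE : Eul m lam q) {s : ℂ}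
    (hs : Summable (fun n : ℕ => if 1 ≤ n then ‖lam n‖ * (n : ℝ) ^ (-s.re) else 0))
    {S : Finset ℕ} (hS : ∀ p ∈ S, p.Prime) {p : ℕ} (hp : p.Prime) (hpS : p ∉ S) :
    qv m (q p) ((p : ℂ) ^ (-s)) * ∑' n, tm lam s S n = ∑' n, tm lam s (insert p S) n := by
  classical
  set x : ℂ := (p : ℂ) ^ (-s) with hx
  have hf := tm_summable hs S
  -- the terms moved to the multiples of `p ^ j`
  let G : ℕ → ℕ → ℂ := fun j N => if p ^ j ∣ N then q p j * x ^ j * tm lam s S (N / p ^ j) else 0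
  have hinj : ∀ j, Function.Injective fun n : ℕ => p ^ j * n := fun j a b h =>
    Nat.eq_of_mul_eq_mul_left (pow_pos hp.pos j) h
  have hsup : ∀ j N, N ∉ Set.range (fun n : ℕ => p ^ j * n) → G j N = 0 := by
    intro j N hN
    refine if_neg fun hd => hN ?_
    obtain ⟨c, rfl⟩ := hd
    exact ⟨c, rfl⟩
  have hG : ∀ j n, G j (p ^ j * n) = q p j * x ^ j * tm lam s S n := by
    intro j n
    show (if p ^ j ∣ p ^ j * n then _ else _) = _
    rw [if_pos (Nat.dvd_mul_right _ _), Nat.mul_div_cancel_left _ (pow_pos hp.pos j)]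
  have hGs : ∀ j, Summable (G j) := by
    intro j
    refine ((hinj j).summable_iff (hsup j)).1 ?_
    refine (hf.mul_left (q p j * x ^ j)).congr fun n => ?_
    exact (hG j n).symm
  have hGt : ∀ j, ∑' N, G j N = q p j * x ^ j * ∑' n, tm lam s S n := by
    intro j
    rw [← tsum_mul_left]
    have := (hinj j).tsum_eq (f := G j) (fun N hN => by
      by_contra hcon
      exact hN (hsup j N hcon))
    rw [← this]
    exact tsum_congr fun n => hG j n
  have h1 : qv m (q p) x * ∑' n, tm lam s S n = ∑' N, ∑ j ∈ range (m + 1), G j N := by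
    rw [Summable.tsum_finsetSum fun j _ => hGs j]
    unfold qv
    rw [Finset.sum_mul]
    exact Finset.sum_congr rfl fun j _ => (hGt j).symm
  rw [h1]
  refine tsum_congr fun N => ?_
  rcases Nat.eq_zero_or_pos N with rfl | hN
  · have h0 : ∀ T, tm lam s T 0 = 0 := fun T => if_neg fun h => absurd h.1 (by omega)
    rw [h0]
    refine Finset.sum_eq_zero fun j _ => ?_
    show (if p ^ j ∣ 0 then _ else _) = _
    rw [Nat.zero_div, h0, mul_zero, ite_self]
  obtain ⟨v, n, hn, rfl⟩ := Nat.exists_eq_pow_mul_and_not_dvd hN.ne' p hp.ne_one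
  have hterm : ∀ j, G j (p ^ v * n) =
      if j ≤ v then q p j * lam (p ^ (v - j)) * (x ^ v * tm lam s S n) else 0 := by
    intro j
    by_cases hj : j ≤ v
    · have e1 : p ^ v * n = p ^ j * (p ^ (v - j) * n) := by
        rw [← mul_assoc, ← pow_add, Nat.add_sub_cancel' hj]
      have e2 : x ^ v = x ^ j * x ^ (v - j) := by rw [← pow_add, Nat.add_sub_cancel' hj]
      rw [if_pos hj, e1, hG, tm_pow_mul hE s hS hp hpS (v - j) hn, ← hx, e2]
      ring
    · rw [if_neg hj]
      refine if_neg fun hd => hj ?_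
      have h2 : p ^ j ∣ p ^ v := (Nat.Coprime.dvd_mul_right (Nat.Coprime.pow_left j
        ((Nat.Prime.coprime_iff_not_dvd hp).2 hn))).1 hd
      exact (Nat.pow_dvd_pow_iff_le_right hp.one_lt).1 h2
  have hsum : ∑ j ∈ range (m + 1), G j (p ^ v * n) =
      (∑ j ∈ range (v + 1), q p j * lam (p ^ (v - j))) * (x ^ v * tm lam s S n) := by
    rw [Finset.sum_mul]
    have h3 : ∑ j ∈ range (m + 1), G j (p ^ v * n) =
        ∑ j ∈ range (m + 1 + (v + 1)), G j (p ^ v * n) := by
      refine Finset.sum_subset (Finset.range_subset_range.2 (by omega)) fun j _ hj => ?_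
      rw [hterm, (hE.loc p hp).deg j (by simpa using hj)]
      simp
    rw [h3]
    symm
    refine Finset.sum_subset_zero_on_sdiff (Finset.range_subset_range.2 (by omega))
      (fun j hj => ?_) fun j hj => ?_
    · rw [hterm, if_neg]
      have := (Finset.mem_sdiff.1 hj).2
      simp only [Finset.mem_range] at this
      omega
    · rw [hterm, if_pos (by have := Finset.mem_range.1 hj; omega)]
  rw [hsum]
  rcases Nat.eq_zero_or_pos v with rfl | hv
  · have e1 : ∑ j ∈ range (0 + 1), q p j * lam (p ^ (0 - j)) = 1 := by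
      simp [(hE.loc p hp).q0, hE.one]
    rw [e1, one_mul, pow_zero, one_mul, pow_zero, one_mul]
    unfold tm
    refine if_congr ⟨fun h => ⟨h.1, fun p' hp' => ?_⟩, fun h => ⟨h.1, fun p' hp' =>
      h.2 p' (Finset.mem_insert_of_mem hp')⟩⟩ rfl rfl
    rcases Finset.mem_insert.1 hp' with rfl | h'
    · exact hn
    · exact h.2 p' h'
  · rw [(hE.loc p hp).conv v hv, zero_mul]
    symm
    refine if_neg fun h => h.2 p (Finset.mem_insert_self _ _) ?_
    exact Dvd.dvd.mul_right (dvd_pow_self p hv.ne') n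

/-- EPR. -/
theorem pf_EPR : T_EPR := by
  classical
  intro m lam q s S hE hS hs
  have key : ∀ S : Finset ℕ, (∀ p ∈ S, p.Prime) →
      (∏ p ∈ S, qv m (q p) ((p : ℂ) ^ (-s))) * ∑' n, tm lam s ∅ n = ∑' n, tm lam s S n := by
    intro S
    induction S using Finset.induction_on with
    | empty => intro _; rw [Finset.prod_empty, one_mul]
    | insert p S hpS ih =>
      intro h
      rw [Finset.prod_insert hpS, mul_assoc, ih fun p' hp' => h p' (Finset.mem_insert_of_mem hp')]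
      exact step hE hs (fun p' hp' => h p' (Finset.mem_insert_of_mem hp'))
        (h p (Finset.mem_insert_self _ _)) hpS
  have h := key S hS
  have e0 : ∀ n, tm lam s ∅ n = if 1 ≤ n then lam n * (n : ℂ) ^ (-s) else 0 := by
    intro n
    unfold tm
    simp
  have e1 : ∀ n, tm lam s S n =
      if 1 ≤ n ∧ ∀ p ∈ S, ¬ p ∣ n then lam n * (n : ℂ) ^ (-s) else 0 := by
    intro n
    unfold tm
    congr
  simp only [e0, e1] at h
  exact h

end Pool.Agent.H96.ZF
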